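import Pool.Agent.Q61.DP.Stm

namespace Pool.Agent.Q238.DP

open Pool.Agent.Q61.DP
open MeasureTheory InnerProductSpace Topology Filter Set Metric
open scoped ContDiff ComplexConjugate

/-- `∂v/∂z`. -/
noncomputable def dz (v : ℂ → ℝ) (z : ℂ) : ℂ :=
  (1 / 2) * (((fderiv ℝ v z 1 : ℝ) : ℂ) - Complex.I * ((fderiv ℝ v z Complex.I : ℝ) : ℂ))

theorem d3_key (v : ℂ → ℝ) (φ y : ℂ → ℂ) (hv : ContDiff ℝ 2 v) (hy : Differentiable ℂ y)
    (he : ∀ z, deriv (deriv y) z = -φ z * y z)
    (hq : ∀ z, ((D2 v z 1 1 - D2 v z Complex.I Complex.I : ℝ) : ℂ) -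
      2 * Complex.I * (D2 v z 1 Complex.I : ℝ) = -4 * φ z * v z) :
    Differentiable ℂ (fun z => conj ((v z : ℂ) * deriv y z - dz v z * y z)) := by
  intro z
  have hvd : Differentiable ℝ v := hv.differentiable (by norm_num)
  have hvdd : Differentiable ℝ (fderiv ℝ v) :=
    (hv.fderiv_right (m := 1) (by norm_num)).differentiable (by norm_num)
  have hy' : Differentiable ℂ (deriv y) := by
    intro x
    exact (hy.analyticAt x).deriv.differentiableAt
  have a1 : HasFDerivAt (fun z => ((v z : ℝ) : ℂ)) (Complex.ofRealCLM.comp (fderiv ℝ v z)) z :=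
    Complex.ofRealCLM.hasFDerivAt.comp z (hvd z).hasFDerivAt
  have a2 : ∀ q : ℂ, HasFDerivAt (fun z => ((fderiv ℝ v z q : ℝ) : ℂ))
      (Complex.ofRealCLM.comp ((ContinuousLinearMap.apply ℝ ℝ q).comp
        (fderiv ℝ (fderiv ℝ v) z))) z := by
    intro q
    have := (ContinuousLinearMap.apply ℝ ℝ q).hasFDerivAt.comp z (hvdd z).hasFDerivAt
    exact Complex.ofRealCLM.hasFDerivAt.comp z this
  have a3 : HasFDerivAt y ((fderiv ℂ y z).restrictScalars ℝ) z :=
    (hy z).hasFDerivAt.restrictScalars ℝ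
  have a4 : HasFDerivAt (deriv y) ((fderiv ℂ (deriv y) z).restrictScalars ℝ) z :=
    (hy' z).hasFDerivAt.restrictScalars ℝ
  have a5 : HasFDerivAt (dz v) ((1 / 2 : ℂ) • (Complex.ofRealCLM.comp
      ((ContinuousLinearMap.apply ℝ ℝ (1:ℂ)).comp (fderiv ℝ (fderiv ℝ v) z)) -
      Complex.I • Complex.ofRealCLM.comp
      ((ContinuousLinearMap.apply ℝ ℝ Complex.I).comp (fderiv ℝ (fderiv ℝ v) z)))) z :=
    ((a2 1).sub ((a2 Complex.I).const_mul Complex.I)).const_mul (1 / 2)
  have a6 := (a1.mul a4).sub (a5.mul a3)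
  have a7 := Complex.conjCLE.toContinuousLinearMap.hasFDerivAt.comp z a6
  have hsym : D2 v z Complex.I 1 = D2 v z 1 Complex.I := by
    have hs : IsSymmSndFDerivAt ℝ v z := hv.contDiffAt.isSymmSndFDerivAt (by simp)
    exact hs Complex.I 1
  have e1 : fderiv ℂ y z 1 = deriv y z := by simp
  have e2 : fderiv ℂ y z Complex.I = Complex.I * deriv y z := by
    rw [fderiv_eq_smul_deriv, smul_eq_mul]
  have e3 : fderiv ℂ (deriv y) z 1 = -φ z * y z := by rw [← he z]; simp
  have e4 : fderiv ℂ (deriv y) z Complex.I = Complex.I * (-φ z * y z) := by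
    rw [fderiv_eq_smul_deriv, smul_eq_mul, he z]
  have hq' := hq z
  have hmain : (fun z => conj ((v z : ℂ) * deriv y z - dz v z * y z)) =
      (Complex.conjCLE.toContinuousLinearMap) ∘ ((fun z => ((v z : ℝ) : ℂ)) * deriv y -
        dz v * y) := rfl
  rw [hmain, differentiableAt_complex_iff_differentiableAt_real]
  refine ⟨a7.differentiableAt, ?_⟩
  rw [a7.fderiv]
  set d11 : ℝ := D2 v z 1 1 with h11
  set d1I : ℝ := D2 v z 1 Complex.I with h1I
  set dII : ℝ := D2 v z Complex.I Complex.I with hII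
  have f11 : fderiv ℝ (fderiv ℝ v) z 1 1 = d11 := rfl
  have f1I : fderiv ℝ (fderiv ℝ v) z 1 Complex.I = d1I := rfl
  have fI1 : fderiv ℝ (fderiv ℝ v) z Complex.I 1 = d1I := hsym
  have fII : fderiv ℝ (fderiv ℝ v) z Complex.I Complex.I = dII := rfl
  simp only [ContinuousLinearMap.comp_apply, sub_apply,
    add_apply, smul_apply,
    ContinuousLinearMap.coe_restrictScalars', ContinuousLinearMap.apply_apply, smul_eq_mul,
    Complex.ofRealCLM_apply, ContinuousLinearEquiv.coe_coe, Complex.conjCLE_apply, e1, e2, e3, e4,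
    f11, f1I, fI1, fII]
  have key : ∀ p q : ℂ, p = -Complex.I * q → conj p = Complex.I * conj q := by
    intro p q h
    rw [h, map_mul, map_neg, Complex.conj_I, neg_neg]
  apply key
  push_cast at hq'
  rw [dz]
  linear_combination (-(y z * Complex.I / 2)) * hq' + (deriv y z * ((fderiv ℝ v z Complex.I : ℝ) : ℂ) - y z * (d1I : ℂ) / 2) * Complex.I_sq

theorem d3 : S_D3 := by
  intro v φ y₁ y₂ hv hφ h1 h2 he1 he2 hw hq
  refine ⟨fun z => conj ((v z : ℂ) * deriv y₂ z - dz v z * y₂ z),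
    fun z => -conj ((v z : ℂ) * deriv y₁ z - dz v z * y₁ z), d3_key v φ y₂ hv h2 he2 hq,
    (d3_key v φ y₁ hv h1 he1 hq).neg, fun z => ?_⟩
  simp only [map_neg, Complex.conj_conj]
  linear_combination (-(v z : ℂ)) * hw z

end Pool.Agent.Q238.DP
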