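import Pool.Agent.Q61.DP.Stm

namespace Pool.Agent.Q238.DP

open Pool.Agent.Q61.DP
open MeasureTheory InnerProductSpace Laplacian Topology Filter Set Metric
open scoped ContDiff ENNReal

theorem d5 (h1 : S_D1a) (h2 : S_D1b) (h3 : S_D1c) (h4 : S_D2) (h5 : S_D3) (h6 : S_D4) : S_D5 := by
  intro u hu
  obtain ⟨hc, hi⟩ := h2 u hu
  have hd : Differentiable ℂ (qd u) := h1 (qd u) hc hi
  have hφ : Differentiable ℂ (fun z => qd u z / 4) := hd.div_const 4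
  obtain ⟨y₁, y₂, hy1, hy2, he1, he2, hw⟩ := h4 (fun z => qd u z / 4) hφ
  obtain ⟨v, hv, hv2, hm, hq⟩ := h3 u hu
  obtain ⟨E₁, E₂, hE1, hE2, hr⟩ := h5 v (fun z => qd u z / 4) y₁ y₂ hv2 hφ hy1 hy2 he1 he2 hw (by
    intro z
    rw [hq z]
    ring)
  obtain ⟨a, b, ha, hb, hab, hn⟩ := h6 v y₁ y₂ E₁ E₂ hv2 (fun z => by rw [hv z]; exact Real.exp_pos _)
    hy1 hy2 hE1 hE2 hw hr hm
  exact ⟨a, b, ha, hb, hab, fun z => by rw [hn z, hv z]⟩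

end Pool.Agent.Q238.DP
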