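import Pool.Agent.Q238.DP.Geo

namespace Pool.Agent.Q238.DP

open Pool.Agent.Q61.DP
open MeasureTheory InnerProductSpace Topology Filter Set Metric InnerProductGeometry

theorem dl_ineq {R κ s x y : ℝ} (hR0 : 0 < R) (hR : R < Real.pi / 2) (hk0 : 0 ≤ κ) (hk1 : κ < 1)
    (hs : 0 < s) (hs1 : s ≤ 1) (hx : x ≤ Real.cos R) (hy : Real.cos R ^ 2 ≤ y)
    (h : Real.cos (R + κ * s) <
      Real.cos s * x - Real.sin s / Real.sin R * (y - Real.cos R * x)) :
    (1 - s ^ 2 / 4) * (y - Real.cos R ^ 2) ≤ κ * Real.sin R ^ 2 := by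
  have hpi := Real.pi_pos
  have hsR : 0 < Real.sin R := Real.sin_pos_of_pos_of_lt_pi hR0 (by linarith)
  have hcR : 0 < Real.cos R := Real.cos_pos_of_mem_Ioo ⟨by linarith, hR⟩
  have hpi3 : (3:ℝ) < Real.pi := Real.pi_gt_three
  have hss : 0 < Real.sin s := Real.sin_pos_of_pos_of_lt_pi hs (by linarith)
  have hcs : 0 < Real.cos s := Real.cos_pos_of_mem_Ioo ⟨by linarith, by linarith⟩
  have hsub : s - s ^ 3 / 4 < Real.sin s := by
    have h := Real.sin_gt_sub_cube hs
    have h' : 0 < s ^ 3 := by positivity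
    linarith
  have h1 : Real.cos s ≤ Real.cos (κ * s) :=
    Real.cos_le_cos_of_nonneg_of_le_pi (by positivity) (by linarith) (by nlinarith)
  have h2 : Real.sin (κ * s) ≤ κ * s := Real.sin_le (by positivity)
  have h3 : Real.cos R * Real.cos s - Real.sin R * (κ * s) ≤ Real.cos (R + κ * s) := by
    rw [Real.cos_add]
    nlinarith [mul_le_mul_of_nonneg_left h1 hcR.le, mul_le_mul_of_nonneg_left h2 hsR.le]
  have h4 : Real.cos s * x - Real.sin s / Real.sin R * (y - Real.cos R * x) ≤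
      Real.cos s * Real.cos R - Real.sin s / Real.sin R * (y - Real.cos R ^ 2) := by
    have hq : 0 < Real.sin s / Real.sin R := div_pos hss hsR
    have : 0 ≤ (Real.cos R - x) * (Real.cos s + Real.sin s / Real.sin R * Real.cos R) :=
      mul_nonneg (by linarith) (by positivity)
    nlinarith
  have h5 : Real.sin s / Real.sin R * (y - Real.cos R ^ 2) < Real.sin R * (κ * s) := by
    nlinarith
  rw [div_mul_eq_mul_div, div_lt_iff₀ hsR] at h5
  have h6 : (s - s ^ 3 / 4) * (y - Real.cos R ^ 2) ≤ Real.sin s * (y - Real.cos R ^ 2) :=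
    mul_le_mul_of_nonneg_right hsub.le (by linarith)
  have h7 : s * ((1 - s ^ 2 / 4) * (y - Real.cos R ^ 2)) ≤ s * (κ * Real.sin R ^ 2) := by
    nlinarith
  exact le_of_mul_le_mul_left h7 hs

theorem dl (hT : S_TRI) (hR : S_RAD) (hN : S_NE) (hCl : S_CLOSED) (hNi : S_NOTIN)
    (hM : S_MV) : S_DL := by
  intro P hP hnp z g c κ₀ hg hR2 hs hκ₀ δ hδ
  by_contra hcon
  push Not at hcon
  have hpi := Real.pi_pos
  obtain ⟨h0, h1, -⟩ := hR P hP z
  set R := rad P z with hRdef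
  obtain ⟨κ, hk0, hk1, hcon'⟩ : ∃ κ : ℝ, 0 ≤ κ ∧ κ < 1 ∧ ∀ s, 0 < s → s < δ →
      rad P (g (mv (P z) c s)) < R + κ * s := by
    refine ⟨max κ₀ 0, le_max_right _ _, max_lt hκ₀ one_pos, fun s h h' => ?_⟩
    refine (hcon s h h').trans_le ?_
    have := mul_le_mul_of_nonneg_right (le_max_left κ₀ 0) h.le
    linarith
  have hPz : ‖P z‖ = 1 := hP.2.1 z
  have hc : ‖c‖ = 1 := hs.1
  have hac : angle c (P z) = R := hs.2.1
  obtain ⟨m1, m2, m3, m4, -, -, -⟩ := hM (P z) c hPz hc (by rw [hac]; exact h0)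
    (by rw [hac]; linarith)
  obtain ⟨δ₀, d0, d1, d2, d3, d4⟩ : ∃ δ₀ : ℝ, 0 < δ₀ ∧ δ₀ ≤ δ ∧ δ₀ ≤ R / 2 ∧
      δ₀ ≤ Real.pi / 2 - R ∧ δ₀ ≤ 1 :=
    ⟨min (min δ (R / 2)) (min (Real.pi / 2 - R) 1), by
      simp only [lt_min_iff]
      exact ⟨⟨hδ, by linarith⟩, by linarith, one_pos⟩, (min_le_left _ _).trans (min_le_left _ _),
      (min_le_left _ _).trans (min_le_right _ _), (min_le_right _ _).trans (min_le_left _ _),
      (min_le_right _ _).trans (min_le_right _ _)⟩
  set s : ℕ → ℝ := fun j => δ₀ / ((j : ℝ) + 2) with hsdef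
  have s0 : ∀ j, 0 < s j := fun j => by simp only [hsdef]; positivity
  have s1 : ∀ j, s j < δ₀ := fun j => by
    simp only [hsdef]
    rw [div_lt_iff₀ (by positivity)]
    have : (0:ℝ) ≤ j := Nat.cast_nonneg j
    nlinarith
  have slim : Tendsto s atTop (𝓝 0) := by
    have h : Tendsto (fun j : ℕ => (j:ℝ) + 2) atTop atTop :=
      tendsto_atTop_add_const_right atTop (2:ℝ) tendsto_natCast_atTop_atTop
    exact h.const_div_atTop δ₀
  have hw : ∀ j, mv (P z) c (s j) ∈ capA (P z) R := by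
    intro j
    refine ⟨m1 _, ?_⟩
    rw [m4 _ (by rw [abs_of_pos (s0 j)]; linarith [s1 j]), abs_of_pos (s0 j)]
    linarith [s1 j]
  have hang : ∀ j, angle (mv (P z) c (s j)) (P z) = s j := by
    intro j
    rw [m4 _ (by rw [abs_of_pos (s0 j)]; linarith [s1 j]), abs_of_pos (s0 j)]
  have htri := fun j => (hT P hP).2.1 z g (mv (P z) c (s j)) hg (hw j)
  have hrad : ∀ j, rad P (g (mv (P z) c (s j))) < R + κ * s j :=
    fun j => hcon' (s j) (s0 j) (by linarith [s1 j])
  have hks : ∀ j, κ * s j ≤ s j := fun j => by nlinarith [s0 j]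
  have hks0 : ∀ j, 0 ≤ κ * s j := fun j => by
    have := s0 j
    positivity
  have hsing : ∀ j, ∃ d, Sing P (g (mv (P z) c (s j))) d := fun j =>
    hN P hP _ (by linarith [hrad j, hks j, s1 j])
  choose d hd using hsing
  obtain ⟨c', -, φ, hφ, hlim⟩ := (isCompact_sphere (0:E3) 1).tendsto_subseq
    (x := d) (fun j => by rw [mem_sphere_zero_iff_norm]; exact (hd j).1)
  have hsφ : Tendsto (fun k => s (φ k)) atTop (𝓝 0) := slim.comp hφ.tendsto_atTop
  have hself : P z ∈ capA (P z) R := self_mem_cap hPz h0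
  have hmlim : Tendsto (fun k => mv (P z) c (s (φ k))) atTop (𝓝 (P z)) := by
    have := (m2.tendsto 0).comp hsφ
    rwa [m3] at this
  have hgz : g (P z) = z := hg.2
  have hzlim : Tendsto (fun k => g (mv (P z) c (s (φ k)))) atTop (𝓝 z) := by
    have h := (hg.1.1 (P z) hself)
    have h' : Tendsto (fun k => mv (P z) c (s (φ k))) atTop (𝓝[capA (P z) R] (P z)) :=
      tendsto_nhdsWithin_iff.2 ⟨hmlim, Eventually.of_forall fun k => hw _⟩
    have := h.tendsto.comp h'
    rwa [hgz] at this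
  have hc'sing : Sing P z c' := hCl P hP _ (fun k => d (φ k)) z c' hzlim hlim (fun k => hd _)
  have hcc : c' = c := by
    rcases hnp z c c' hs hc'sing with h | h
    · exact h
    · exfalso
      have e := hc'sing.2.1
      rw [h, angle_neg_left, hac] at e
      linarith
  rw [hcc] at hlim
  have hcosR : inner ℝ c (P z) = Real.cos R := by rw [← cos_ang hc hPz, hac]
  have hylim : Tendsto (fun k => inner ℝ (d (φ k)) c) atTop (𝓝 1) := by
    have : Tendsto (fun k => inner ℝ (d (φ k)) c) atTop (𝓝 (inner ℝ c c)) :=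
      hlim.inner tendsto_const_nhds
    rwa [real_inner_self_eq_norm_sq, hc, one_pow] at this
  have hsR : 0 < Real.sin R := Real.sin_pos_of_pos_of_lt_pi h0 (by linarith)
  have hcR1 : Real.cos R ^ 2 < 1 := by nlinarith [Real.sin_sq_add_cos_sq R]
  have hkey : ∀ᶠ k in atTop, (1 - s (φ k) ^ 2 / 4) * (inner ℝ (d (φ k)) c - Real.cos R ^ 2) ≤
      κ * Real.sin R ^ 2 := by
    filter_upwards [hylim.eventually_const_lt hcR1] with k hk
    set j := φ k
    obtain ⟨e1, e2, e3⟩ := htri j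
    rw [hang j] at e2
    obtain ⟨k0, k1, g', hg's, hg'c⟩ := hR P hP (g (mv (P z) c (s j)))
    have hdj := hd j
    have hd1 : ‖d j‖ = 1 := hdj.1
    have hadj : angle (d j) (mv (P z) c (s j)) = rad P (g (mv (P z) c (s j))) := by
      rw [← hdj.2.1, e1]
    have hPzm : P z ∈ capA (mv (P z) c (s j)) (rad P (g (mv (P z) c (s j)))) := by
      refine ⟨hPz, ?_⟩
      rw [angle_comm, hang j]
      have := (abs_le.1 e2).1
      linarith [s1 j]
    have e4 := e3 g' ⟨hg's, hg'c⟩ (P z) ⟨hself, hPzm⟩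
    have e5 := hNi P hP (g (mv (P z) c (s j))) g' (P z) (d j) ⟨hg's, hg'c⟩
      (by rw [e1]; exact hPzm) hdj
    rw [e4, hgz] at e5
    have hx : inner ℝ (d j) (P z) ≤ Real.cos R := by
      rw [← cos_ang hd1 hPz]
      exact Real.cos_le_cos_of_nonneg_of_le_pi h0.le (angle_le_pi _ _) e5
    have hy2 : Real.cos (R + κ * s j) < inner ℝ (d j) (mv (P z) c (s j)) := by
      rw [← cos_ang hd1 (m1 _), hadj]
      exact Real.cos_lt_cos_of_nonneg_of_le_pi k0.le (by linarith [hks j, s1 j]) (hrad j)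
    have hexp : inner ℝ (d j) (mv (P z) c (s j)) = Real.cos (s j) * inner ℝ (d j) (P z) -
        Real.sin (s j) / Real.sin R * (inner ℝ (d j) c - Real.cos R * inner ℝ (d j) (P z)) := by
      rw [mv, hac, inner_sub_right, inner_smul_right, inner_smul_right, inner_sub_right,
        inner_smul_right]
    rw [hexp] at hy2
    exact dl_ineq h0 hR2 hk0 hk1 (s0 j) (by linarith [s1 j]) hx hk.le hy2
  have hlimit : Tendsto (fun k => (1 - s (φ k) ^ 2 / 4) *
      (inner ℝ (d (φ k)) c - Real.cos R ^ 2)) atTop (𝓝 ((1 - 0 ^ 2 / 4) * (1 - Real.cos R ^ 2))) := by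
    exact (tendsto_const_nhds.sub ((hsφ.pow 2).div_const 4)).mul (hylim.sub tendsto_const_nhds)
  have hfin := le_of_tendsto hlimit hkey
  have hsc := Real.sin_sq_add_cos_sq R
  nlinarith [mul_pos hsR hsR]

end Pool.Agent.Q238.DP
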