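import Pool.Agent.Q238.DP.Geo

namespace Pool.Agent.Q238.DP

open Pool.Agent.Q61.DP
open MeasureTheory InnerProductSpace Topology Filter Set Metric InnerProductGeometry

theorem sec_mono {P : ℂ → E3} {g : E3 → ℂ} {A B : Set E3} (h : Sec P g A) (hB : B ⊆ A) :
    Sec P g B := ⟨h.1.mono hB, fun w hw => h.2 w (hB hw)⟩

theorem eqn (hT : S_TRI) (hR : S_RAD) (hN : S_NE) (hSt : S_STAR) (hH : S_HH) (hU : S_UNIQ)
    (hC : S_CONV) (hM : S_MV) : S_EQ := by
  intro P hP hnp z g w c hg hr h1 h2 hw ha hi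
  have hpi := Real.pi_pos
  have hc : ‖c‖ = 1 := h1.1
  have hwc : w ∈ capA (P z) (Real.pi / 2) := ⟨hw, by linarith⟩
  have hwc' : w ∈ capA (P z) (rad P z) := by rw [hr]; exact hwc
  obtain ⟨e1, e2, -⟩ := (hT P hP).2.1 z g w hg hwc'
  obtain ⟨k0, k1, -⟩ := hR P hP (g w)
  have hmain : rad P (g w) = Real.pi / 2 := by
    by_contra hne
    have hlt : rad P (g w) < Real.pi / 2 := lt_of_le_of_ne k1 hne
    obtain ⟨c₁, hc₁⟩ := hN P hP (g w) hlt
    obtain ⟨z', g', hr', hs', hg', hm, he, hP'⟩ := hSt P hP hnp (g w) c₁ hc₁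
    have hang1 : angle c₁ w = rad P (g w) := by rw [← hc₁.2.1, e1]
    rw [e1] at hm he hP'
    obtain ⟨m1, m2, m3, m4, -⟩ := hM w c₁ hw hc₁.1 (by rw [hang1]; exact k0)
      (by rw [hang1]; linarith)
    have h5 : angle (P z') w = Real.pi / 2 - rad P (g w) := by
      rw [hP', m4 _ (by rw [abs_of_nonneg (by linarith)]; linarith), abs_of_nonneg (by linarith)]
    have h6 : Real.pi / 2 - rad P (g w) ≤ angle w (P z) := by
      rw [hr] at e2
      have := (abs_le.1 e2).1
      linarith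
    have h7 : angle (P z') (P z) < Real.pi / 2 := by
      have := angle_le_angle_add_angle (P z') w (P z)
      linarith
    have hz'1 : ‖P z'‖ = 1 := hP.2.1 z'
    have hz'm : P z' ∈ capA (P z) (Real.pi / 2) := ⟨hz'1, h7⟩
    have hz's : P z' ∈ capA (P z') (Real.pi / 2) := self_mem_cap hz'1 (by linarith)
    have hsec1 : Sec P g (capA (P z) (Real.pi / 2)) := by rw [← hr]; exact hg.1
    have hsec2 : Sec P g' (capA (P z') (Real.pi / 2)) := by rw [← hr']; exact hg'.1
    have h8 := hU P hP g g' (capA (P z) (Real.pi / 2) ∩ capA (P z') (Real.pi / 2))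
      (cap_pre2 hC le_rfl le_rfl) (sec_mono hsec1 inter_subset_left)
      (sec_mono hsec2 inter_subset_right) ⟨w, ⟨hwc, hm⟩, he.symm⟩ (P z') ⟨hz'm, hz's⟩
    rw [hg'.2] at h8
    have h9 := (hH P hP z g (P z') c hg hr h1 h2 hz'm (by rw [h8, hr'])).1
    rw [h8] at h9
    have hcw : inner ℝ c w = 0 := by rw [real_inner_comm]; exact hi
    have hacw : angle c w = Real.pi / 2 := by
      rw [← inner_eq_zero_iff_angle_eq_pi_div_two]; exact hcw
    rcases hnp z' c c₁ h9 hs' with h | h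
    · rw [h, hacw] at hang1
      exact hne hang1.symm
    · rw [h, angle_neg_left, hacw] at hang1
      apply hne
      linarith
  exact ⟨hmain, hH P hP z g w c hg hr h1 h2 hwc hmain⟩

end Pool.Agent.Q238.DP
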