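import Pool.Agent.Q61.DP.Stm

namespace Pool.Agent.Q238.DP

open Pool.Agent.Q61.DP
open MeasureTheory InnerProductSpace Laplacian Topology Filter Set Metric
open scoped ContDiff ENNReal

theorem final (h5 : S_D5) (hLo : S_LOW) (hP : S_P5) (hB : S_B3) (hL : S_LHP) (hT : S_T1)
    (hE : S_E5) (c1 : S_C1) (c2 : S_C2) (c3 : S_C3) (c4 : S_C4) : S_FINAL := by
  intro u hu
  obtain ⟨a, b, hd⟩ := h5 u hu
  have hlow : ENNReal.ofReal Real.pi ≤ gdiam u := hLo u a b hd
  constructor
  · intro h
    have hxy : ∀ x y, gdist u x y ≤ ENNReal.ofReal Real.pi := by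
      intro x y
      rw [← h]
      exact le_iSup_of_le x (le_iSup (fun y => gdist u x y) y)
    by_cases hr : Radial u
    · exact Or.inl hr
    · right
      have hnp := hP u a b hd hxy
      have hnb := hB u a b hd hxy hr
      exact hE u a b hd (hT (Bl a b) (hL u a b hd) hnp hnb)
  · intro h
    apply le_antisymm _ hlow
    refine iSup_le fun x => iSup_le fun y => ?_
    rcases h with h | h
    · obtain ⟨l, x₀, hl, hux⟩ := c1 u hu h
      have := c3 l x₀ hl x y
      rwa [← (funext hux : u = _)] at this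
    · obtain ⟨e, c, t₀, he, hc, hux⟩ := c2 u hu h
      have := c4 e c t₀ he hc x y
      rwa [← (funext hux : u = _)] at this

end Pool.Agent.Q238.DP
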