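import Pool.Agent.Q61.DP.Stm

namespace Pool.Agent.Q238.DP

open Pool.Agent.Q61.DP
open MeasureTheory InnerProductSpace Topology Filter Set Metric InnerProductGeometry

theorem cos_ang {x n : E3} (hx : ‖x‖ = 1) (hn : ‖n‖ = 1) : Real.cos (angle x n) = inner ℝ x n := by
  rw [cos_angle, hx, hn, mul_one, div_one]

theorem ang_lt_iff {x n : E3} (hx : ‖x‖ = 1) (hn : ‖n‖ = 1) {r : ℝ} (h0 : 0 ≤ r)
    (h1 : r ≤ Real.pi) : angle x n < r ↔ Real.cos r < inner ℝ x n := by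
  rw [← cos_ang hx hn]
  exact (Real.strictAntiOn_cos.lt_iff_gt ⟨h0, h1⟩ ⟨angle_nonneg x n, angle_le_pi x n⟩).symm

theorem ang_le_iff {x n : E3} (hx : ‖x‖ = 1) (hn : ‖n‖ = 1) {r : ℝ} (h0 : 0 ≤ r)
    (h1 : r ≤ Real.pi) : angle x n ≤ r ↔ Real.cos r ≤ inner ℝ x n := by
  rw [← cos_ang hx hn]
  exact (Real.strictAntiOn_cos.le_iff_ge ⟨h0, h1⟩ ⟨angle_nonneg x n, angle_le_pi x n⟩).symm

theorem mem_cap {x n : E3} (hn : ‖n‖ = 1) {r : ℝ} (h0 : 0 ≤ r) (h1 : r ≤ Real.pi) :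
    x ∈ capA n r ↔ ‖x‖ = 1 ∧ Real.cos r < inner ℝ x n := by
  constructor
  · rintro ⟨h, h'⟩
    exact ⟨h, (ang_lt_iff h hn h0 h1).1 h'⟩
  · rintro ⟨h, h'⟩
    exact ⟨h, (ang_lt_iff h hn h0 h1).2 h'⟩

theorem ang_self {n : E3} (hn : ‖n‖ = 1) : angle n n = 0 := by
  apply angle_self
  intro h
  rw [h, norm_zero] at hn
  exact one_ne_zero hn.symm

theorem self_mem_cap {n : E3} (hn : ‖n‖ = 1) {r : ℝ} (h0 : 0 < r) : n ∈ capA n r :=
  ⟨hn, by rw [ang_self hn]; exact h0⟩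

/-- The normalised segment from `c` to `w`. -/
noncomputable def qc (c w : E3) (t : ℝ) : E3 := ‖c + t • w‖⁻¹ • (c + t • w)

theorem qc_tendsto {c w : E3} (hc : ‖c‖ = 1) : Tendsto (qc c w) (𝓝[>] 0) (𝓝 c) := by
  have h : ContinuousAt (qc c w) 0 := by
    have k1 : ContinuousAt (fun t : ℝ => ‖c + t • w‖⁻¹) 0 := by
      apply ContinuousAt.inv₀
      · fun_prop
      · simp [hc]
    have k2 : ContinuousAt (fun t : ℝ => c + t • w) 0 := by fun_prop
    exact k1.smul k2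
  have h0 : qc c w 0 = c := by simp [qc, hc]
  have := h.tendsto
  rw [h0] at this
  exact this.mono_left nhdsWithin_le_nhds

theorem qc_mem {n c w : E3} {R : ℝ} (hn : ‖n‖ = 1) (hc : ‖c‖ = 1) (hw : ‖w‖ = 1)
    (hR0 : 0 < R) (hR : R ≤ Real.pi / 2) (h1 : angle c n ≤ R) (h2 : angle w n < R) {t : ℝ}
    (ht : 0 < t) : qc c w t ∈ capA n R := by
  have hpi := Real.pi_pos
  have hcos : 0 ≤ Real.cos R := Real.cos_nonneg_of_neg_pi_div_two_le_of_le (by linarith) hR
  have e1 : Real.cos R ≤ inner ℝ c n := (ang_le_iff hc hn hR0.le (by linarith)).1 h1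
  have e2 : Real.cos R < inner ℝ w n := (ang_lt_iff hw hn hR0.le (by linarith)).1 h2
  have e3 : ‖c + t • w‖ ≤ 1 + t := by
    refine (norm_add_le _ _).trans ?_
    rw [norm_smul, hc, hw, Real.norm_of_nonneg ht.le, mul_one]
  have e4 : Real.cos R * ‖c + t • w‖ < inner ℝ (c + t • w) n := by
    rw [inner_add_left, inner_smul_left]
    simp only [conj_trivial]
    nlinarith [mul_le_mul_of_nonneg_left e3 hcos, mul_lt_mul_of_pos_left e2 ht]
  have e5 : 0 < ‖c + t • w‖ := by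
    rcases (norm_nonneg (c + t • w)).eq_or_lt with h | h
    · exfalso
      have h' : c + t • w = 0 := norm_eq_zero.1 h.symm
      rw [h', inner_zero_left, norm_zero, mul_zero] at e4
      exact lt_irrefl _ e4
    · exact h
  rw [mem_cap hn hR0.le (by linarith)]
  constructor
  · rw [qc, norm_smul, norm_inv, norm_norm, inv_mul_cancel₀ e5.ne']
  · rw [qc, inner_smul_left]
    simp only [conj_trivial]
    rw [← div_eq_inv_mul, lt_div_iff₀ e5]
    exact e4

theorem cap_nebot {n c w : E3} {R : ℝ} (hn : ‖n‖ = 1) (hc : ‖c‖ = 1) (hw : ‖w‖ = 1)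
    (hR0 : 0 < R) (hR : R ≤ Real.pi / 2) (h1 : angle c n ≤ R) (h2 : angle w n < R) {S : Set E3}
    (hS : ∀ᶠ t in 𝓝[>] (0:ℝ), qc c w t ∈ S) : (𝓝[capA n R ∩ S] c).NeBot := by
  have h : Tendsto (qc c w) (𝓝[>] 0) (𝓝[capA n R ∩ S] c) := by
    rw [tendsto_nhdsWithin_iff]
    refine ⟨qc_tendsto hc, ?_⟩
    filter_upwards [hS, self_mem_nhdsWithin] with t ht ht0
    exact ⟨qc_mem hn hc hw hR0 hR h1 h2 ht0, ht⟩
  exact h.neBot

theorem cap_open_nhds {n c : E3} {r : ℝ} (hc : c ∈ capA n r) :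
    ∀ᶠ x in 𝓝 c, ‖x‖ = 1 → x ∈ capA n r := by
  have hne : c ≠ 0 := by
    intro h
    have := hc.1
    rw [h, norm_zero] at this
    exact zero_ne_one this
  by_cases hn : n = 0
  · have h2 : Real.pi / 2 < r := by
      have := hc.2
      rwa [hn, angle_zero_right] at this
    exact Eventually.of_forall fun x hx => ⟨hx, by rw [hn, angle_zero_right]; exact h2⟩
  · have hcont : ContinuousAt (fun x : E3 => angle x n) c := by
      have h3 : ContinuousAt (fun y : E3 × E3 => angle y.1 y.2) (c, n) := continuousAt_angle hne hn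
      exact ContinuousAt.comp (f := fun x : E3 => (x, n)) h3 (by fun_prop)
    filter_upwards [hcont.eventually_lt continuousAt_const hc.2] with x hx hx1
    exact ⟨hx1, hx⟩

theorem nofin {X : Type*} {l : Filter X} [l.NeBot] {g : X → ℂ} {a : ℂ}
    (h1 : Tendsto g l (cocompact ℂ)) (h2 : Tendsto g l (𝓝 a)) : False := by
  have h3 : Disjoint (𝓝 a) (cocompact ℂ) := disjoint_nhds_cocompact a
  have := h3 h2 h1
  exact NeBot.ne (inferInstance : (map g l).NeBot) (le_bot_iff.1 this)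

theorem cap_pre (hC : S_CONV) {n : E3} {r : ℝ} (hr : r ≤ Real.pi / 2) :
    IsPreconnected (capA n r) := by
  have := hC n n n r r r hr hr hr
  simpa using this

theorem cap_pre2 (hC : S_CONV) {n m : E3} {r s : ℝ} (hr : r ≤ Real.pi / 2) (hs : s ≤ Real.pi / 2) :
    IsPreconnected (capA n r ∩ capA m s) := by
  have := hC n m m r s s hr hs hs
  rwa [inter_assoc, inter_self] at this

/-- Any two branches through the same point agree. -/
theorem br_uniq (hU : S_UNIQ) (hC : S_CONV) (hR : S_RAD) {P : ℂ → E3} (hP : LH P) {z : ℂ}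
    {g g' : E3 → ℂ} (h : IsBr P z g) (h' : IsBr P z g') :
    ∀ w ∈ capA (P z) (rad P z), g w = g' w := by
  obtain ⟨h0, h1, -⟩ := hR P hP z
  refine hU P hP g g' _ (cap_pre hC h1) h.1 h'.1 ⟨P z, self_mem_cap (hP.2.1 z) h0, ?_⟩
  rw [h.2, h'.2]

end Pool.Agent.Q238.DP
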