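import Pool.Agent.Q238.DP.Geo

namespace Pool.Agent.Q238.DP

open Pool.Agent.Q61.DP
open MeasureTheory InnerProductSpace Topology Filter Set Metric InnerProductGeometry

theorem sec_sub {P : ℂ → E3} {g : E3 → ℂ} {A B : Set E3} (h : Sec P g A) (hB : B ⊆ A) :
    Sec P g B := ⟨h.1.mono hB, fun w hw => h.2 w (hB hw)⟩

/-- The midpoint of two close boundary points. -/
theorem mid_exists {n c c' : E3} {r ε : ℝ} (hn : ‖n‖ = 1) (hc : ‖c‖ = 1) (hc' : ‖c'‖ = 1)
    (hr0 : 0 < r) (hr : r ≤ Real.pi / 2) (h1 : angle c n = r) (h2 : angle c' n = r)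
    (he0 : 0 < ε) (he : ε ≤ Real.pi / 4) (h3 : angle c c' < 2 * ε) :
    ∃ m : E3, ‖m‖ = 1 ∧ angle m n ≤ r ∧ m ∈ capA c ε ∧ m ∈ capA c' ε := by
  have hpi := Real.pi_pos
  have hcr : 0 ≤ Real.cos r := Real.cos_nonneg_of_neg_pi_div_two_le_of_le (by linarith) hr
  have hcc : inner ℝ c c = (1:ℝ) := by rw [real_inner_self_eq_norm_sq, hc]; norm_num
  have hcc' : inner ℝ c' c' = (1:ℝ) := by rw [real_inner_self_eq_norm_sq, hc']; norm_num
  set x : ℝ := inner ℝ c c' with hx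
  have hx' : inner ℝ c' c = x := by rw [real_inner_comm]
  have hxe : Real.cos (2 * ε) < x := (ang_lt_iff hc hc' (by linarith) (by linarith)).1 h3
  have hce : 0 < Real.cos ε := Real.cos_pos_of_mem_Ioo ⟨by linarith, by linarith⟩
  rw [Real.cos_two_mul] at hxe
  have hsq : ‖c + c'‖ ^ 2 = 2 + 2 * x := by
    rw [← real_inner_self_eq_norm_sq]
    simp only [inner_add_left, inner_add_right]
    rw [hcc, hcc', hx', ← hx]; ring
  have hpos : 0 < ‖c + c'‖ := by
    rcases (norm_nonneg (c + c')).eq_or_lt with h | h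
    · exfalso
      rw [← h] at hsq
      nlinarith
    · exact h
  have hle : ‖c + c'‖ ≤ 2 := by
    refine (norm_add_le _ _).trans ?_
    rw [hc, hc']; norm_num
  have hlow : 2 * Real.cos ε < ‖c + c'‖ := by nlinarith
  have hm1 : ‖‖c + c'‖⁻¹ • (c + c')‖ = 1 := by
    rw [norm_smul, norm_inv, norm_norm, inv_mul_cancel₀ hpos.ne']
  have key : ∀ y z : E3, (inner ℝ (‖y‖⁻¹ • y) z : ℝ) = inner ℝ y z / ‖y‖ := by
    intro y z
    rw [inner_smul_left]
    simp only [conj_trivial]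
    rw [← div_eq_inv_mul]
  refine ⟨‖c + c'‖⁻¹ • (c + c'), hm1, ?_, ?_, ?_⟩
  · rw [ang_le_iff hm1 hn hr0.le (by linarith), key, le_div_iff₀ hpos, inner_add_left,
      ← cos_ang hc hn, ← cos_ang hc' hn, h1, h2]
    nlinarith
  · rw [mem_cap hc he0.le (by linarith)]
    refine ⟨hm1, ?_⟩
    rw [key, lt_div_iff₀ hpos, inner_add_left, hcc, hx']
    nlinarith
  · rw [mem_cap hc' he0.le (by linarith)]
    refine ⟨hm1, ?_⟩
    rw [key, lt_div_iff₀ hpos, inner_add_left, hcc', ← hx]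
    nlinarith

theorem glue (hU : S_UNIQ) (hC : S_CONV) (hR : S_REG) : S_GLUE := by
  intro P hP n r g K hn hr0 hr hg hK hb
  have hpi := Real.pi_pos
  have hreg : ∀ c ∈ K, ∃ ε : ℝ, 0 < ε ∧ ε ≤ Real.pi / 2 ∧ ∃ k, Sec P k (capA c ε) ∧
      ∀ w ∈ capA n r ∩ capA c ε, k w = g w := by
    intro c hc
    obtain ⟨h1, h2, h3⟩ := hb c hc
    exact hR P hP n c r g hn hr0 hr hg h1 h2 h3
  choose! e he0 he1 kk hk1 hk2 using hreg
  have hnh : ∀ c ∈ K, {x : E3 | angle x c < e c / 2} ∈ 𝓝 c := by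
    intro c hc
    have hc1 := (hb c hc).1
    have hne : c ≠ 0 := by
      intro h
      rw [h, norm_zero] at hc1
      exact zero_ne_one hc1
    have h3 : ContinuousAt (fun y : E3 × E3 => angle y.1 y.2) (c, c) := continuousAt_angle hne hne
    have h4 : ContinuousAt (fun x : E3 => angle x c) c :=
      ContinuousAt.comp (f := fun x : E3 => (x, c)) h3 (by fun_prop)
    have h5 : angle c c < e c / 2 := by rw [ang_self hc1]; linarith [he0 c hc]
    exact h4.eventually_lt continuousAt_const h5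
  obtain ⟨t, htK, hcov⟩ := hK.elim_nhds_subcover (fun c => {x : E3 | angle x c < e c / 2}) hnh
  obtain ⟨ε, hε0, hε1, hε2⟩ : ∃ ε : ℝ, 0 < ε ∧ ε ≤ Real.pi / 4 ∧ ∀ c ∈ t, ε ≤ e c / 2 := by
    rcases t.eq_empty_or_nonempty with h | h
    · exact ⟨Real.pi / 4, by linarith, le_rfl, fun c hc => by rw [h] at hc; simp at hc⟩
    · obtain ⟨c₀, hc₀, hmin⟩ := t.exists_min_image (fun c => e c / 2) h
      refine ⟨e c₀ / 2, by linarith [he0 c₀ (htK c₀ hc₀)], by linarith [he1 c₀ (htK c₀ hc₀)],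
        fun c hc => hmin c hc⟩
  have hk : ∀ c ∈ K, ∃ k, Sec P k (capA c ε) ∧ ∀ w ∈ capA n r ∩ capA c ε, k w = g w := by
    intro c hc
    obtain ⟨i, hi, hci⟩ := mem_iUnion₂.1 (hcov hc)
    have hsub : capA c ε ⊆ capA i (e i) := by
      rintro w ⟨hw1, hw2⟩
      refine ⟨hw1, ?_⟩
      have h1 := angle_le_angle_add_angle w c i
      have h2 : angle c i < e i / 2 := hci
      linarith [hε2 i hi]
    exact ⟨kk i, sec_sub (hk1 i (htK i hi)) hsub, fun w hw =>
      hk2 i (htK i hi) w ⟨hw.1, hsub hw.2⟩⟩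
  choose! k hkS hkg using hk
  have hagree : ∀ c ∈ K, ∀ c' ∈ K, ∀ w ∈ capA c ε ∩ capA c' ε, k c w = k c' w := by
    intro c hc c' hc' w hw
    obtain ⟨hc1, hc2, -⟩ := hb c hc
    obtain ⟨hc1', hc2', -⟩ := hb c' hc'
    have hlt : angle c c' < 2 * ε := by
      have h1 := angle_le_angle_add_angle c w c'
      rw [angle_comm c w] at h1
      linarith [hw.1.2, hw.2.2]
    obtain ⟨m, hm1, hm2, hm3, hm4⟩ := mid_exists hn hc1 hc1' hr0 hr hc2 hc2' hε0 hε1 hlt
    have hnb : (𝓝[capA n r ∩ (capA c ε ∩ capA c' ε)] m).NeBot := by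
      refine cap_nebot hn hm1 hn hr0 hr hm2 (by rw [ang_self hn]; exact hr0) ?_
      filter_upwards [(qc_tendsto hm1).eventually (cap_open_nhds hm3),
        (qc_tendsto hm1).eventually (cap_open_nhds hm4), self_mem_nhdsWithin] with s hs1 hs2 hs3
      have := (qc_mem hn hm1 hn hr0 hr hm2 (by rw [ang_self hn]; exact hr0) hs3).1
      exact ⟨hs1 this, hs2 this⟩
    obtain ⟨q, hq⟩ := (hnb.nonempty_of_mem self_mem_nhdsWithin)
    refine hU P hP (k c) (k c') (capA c ε ∩ capA c' ε)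
      (cap_pre2 hC (by linarith) (by linarith)) (sec_sub (hkS c hc) inter_subset_left)
      (sec_sub (hkS c' hc') inter_subset_right) ⟨q, hq.2, ?_⟩ w hw
    rw [hkg c hc q ⟨hq.1, hq.2.1⟩, hkg c' hc' q ⟨hq.1, hq.2.2⟩]
  classical
  let g' : E3 → ℂ := fun w => if w ∈ capA n r then g w else
    if h : ∃ c ∈ K, w ∈ capA c ε then k (Classical.choose h) w else 0
  have hg1 : ∀ w ∈ capA n r, g' w = g w := fun w hw => by simp only [g', if_pos hw]
  have hg2 : ∀ c ∈ K, ∀ w ∈ capA c ε, g' w = k c w := by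
    intro c hc w hw
    by_cases hwn : w ∈ capA n r
    · rw [hg1 w hwn, hkg c hc w ⟨hwn, hw⟩]
    · have hex : ∃ c ∈ K, w ∈ capA c ε := ⟨c, hc, hw⟩
      have hsp := Classical.choose_spec hex
      simp only [g', if_neg hwn, dif_pos hex]
      exact hagree _ hsp.1 c hc w ⟨hsp.2, hw⟩
  have hone : ∀ w ∈ capA n r ∪ ⋃ c ∈ K, capA c ε, ‖w‖ = 1 := by
    intro w hw
    rcases hw with hw | hw
    · exact hw.1
    · obtain ⟨c, hc, hw⟩ := mem_iUnion₂.1 hw
      exact hw.1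
  have hloc : ∀ (m : E3) (s : ℝ) (w : E3), w ∈ capA m s →
      capA m s ∈ 𝓝[capA n r ∪ ⋃ c ∈ K, capA c ε] w := by
    intro m s w hw
    filter_upwards [mem_nhdsWithin_of_mem_nhds (cap_open_nhds hw), self_mem_nhdsWithin] with
      x hx1 hx2
    exact hx1 (hone x hx2)
  refine ⟨ε, hε0, g', ⟨?_, ?_⟩, hg1⟩
  · intro w hw
    rcases hw with hw | hw
    · have h1 : ContinuousWithinAt g (capA n r ∪ ⋃ c ∈ K, capA c ε) w :=
        (hg.1 w hw).mono_of_mem_nhdsWithin (hloc n r w hw)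
      refine h1.congr_of_eventuallyEq ?_ (hg1 w hw)
      filter_upwards [hloc n r w hw] with x hx
      exact hg1 x hx
    · obtain ⟨c, hc, hw⟩ := mem_iUnion₂.1 hw
      have h1 : ContinuousWithinAt (k c) (capA n r ∪ ⋃ c ∈ K, capA c ε) w :=
        ((hkS c hc).1 w hw).mono_of_mem_nhdsWithin (hloc c ε w hw)
      refine h1.congr_of_eventuallyEq ?_ (hg2 c hc w hw)
      filter_upwards [hloc c ε w hw] with x hx
      exact hg2 c hc x hx
  · intro w hw
    rcases hw with hw | hw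
    · rw [hg1 w hw]; exact hg.2 w hw
    · obtain ⟨c, hc, hw⟩ := mem_iUnion₂.1 hw
      rw [hg2 c hc w hw]; exact (hkS c hc).2 w hw

end Pool.Agent.Q238.DP
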