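import Pool.Agent.Q238.DP.Geo

namespace Pool.Agent.Q238.DP

open Pool.Agent.Q61.DP
open MeasureTheory InnerProductSpace Topology Filter Set Metric InnerProductGeometry

theorem hh (hNi : S_NOTIN) (hS : S_STAY) : S_HH := by
  intro P hP z g w c hg hr h1 h2 hw hrw
  have hw' : w ∈ capA (P z) (rad P z) := by rw [hr]; exact hw
  have a1 := hNi P hP z g w c hg hw' h1
  have a2 := hNi P hP z g w (-c) hg hw' h2
  rw [angle_neg_left] at a2
  have e : angle c w = Real.pi / 2 := by linarith
  have e' : angle (-c) w = Real.pi / 2 := by rw [angle_neg_left]; linarith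
  exact ⟨hS P hP z g w c hg hw' h1 (by rw [hrw, e]), hS P hP z g w (-c) hg hw' h2 (by rw [hrw, e'])⟩

theorem mer (hT : S_TRI) (hNi : S_NOTIN) (hS : S_STAY) : S_MER := by
  intro P hP z g c θ hg hr hs h0 h1
  have hpi := Real.pi_pos
  have hPz : ‖P z‖ = 1 := hP.2.1 z
  have hc : ‖c‖ = 1 := hs.1
  have hcn : inner ℝ c (P z) = 0 := by
    rw [← cos_ang hc hPz, hs.2.1, hr, Real.cos_pi_div_two]
  have hnc : inner ℝ (P z) c = 0 := by rw [real_inner_comm]; exact hcn
  have hcc : inner ℝ c c = 1 := by rw [real_inner_self_eq_norm_sq, hc]; norm_num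
  have hnn : inner ℝ (P z) (P z) = 1 := by rw [real_inner_self_eq_norm_sq, hPz]; norm_num
  set w : E3 := Real.cos θ • P z + Real.sin θ • c with hw
  have hww : inner ℝ w w = 1 := by
    rw [hw]
    simp only [inner_add_left, inner_add_right, inner_smul_left, inner_smul_right, conj_trivial]
    rw [hcn, hnc, hcc, hnn]
    nlinarith [Real.sin_sq_add_cos_sq θ]
  have hw1 : ‖w‖ = 1 := by
    rw [real_inner_self_eq_norm_sq] at hww
    nlinarith [norm_nonneg w]
  have hwn : inner ℝ w (P z) = Real.cos θ := by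
    rw [hw]
    simp only [inner_add_left, inner_smul_left, conj_trivial]
    rw [hcn, hnn]; ring
  have hwc : inner ℝ c w = Real.sin θ := by
    rw [hw]
    simp only [inner_add_right, inner_smul_right]
    rw [hcn, hcc]; ring
  have a1 : angle w (P z) = θ := by
    have := cos_ang hw1 hPz
    rw [hwn] at this
    exact Real.injOn_cos ⟨angle_nonneg _ _, angle_le_pi _ _⟩ ⟨h0, by linarith⟩ this
  have a2 : angle c w = Real.pi / 2 - θ := by
    have := cos_ang hc hw1
    rw [hwc, ← Real.cos_pi_div_two_sub] at this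
    exact Real.injOn_cos ⟨angle_nonneg _ _, angle_le_pi _ _⟩ ⟨by linarith, by linarith⟩ this
  have hw' : w ∈ capA (P z) (rad P z) := ⟨hw1, by rw [a1, hr]; exact h1⟩
  have b1 := hNi P hP z g w c hg hw' hs
  have b2 := ((hT P hP).2.1 z g w hg hw').2.1
  rw [a1, hr, abs_le] at b2
  exact hS P hP z g w c hg hw' hs (by linarith [b2.1])

end Pool.Agent.Q238.DP
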