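import Pool.Agent.Q238.DP.Geo

namespace Pool.Agent.Q238.DP

open Pool.Agent.Q61.DP
open MeasureTheory InnerProductSpace Topology Filter Set Metric InnerProductGeometry

theorem notin (hU : S_UNIQ) (hC : S_CONV) (hR : S_RAD) (hT : S_TRI) : S_NOTIN := by
  intro P hP z g w c hg hw hs
  by_contra hlt
  push Not at hlt
  obtain ⟨hc1, hcr, g₀, hg₀, ht⟩ := hs
  obtain ⟨h0, h1, -⟩ := hR P hP z
  obtain ⟨k0, k1, g', hg's, hg'c⟩ := hR P hP (g w)
  obtain ⟨e1, -, e2⟩ := (hT P hP).2.1 z g w hg hw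
  have hbr : IsBr P (g w) g' := ⟨hg's, hg'c⟩
  have e3 := e2 g' hbr
  have hPz : ‖P z‖ = 1 := hP.2.1 z
  rw [e1] at hg's
  have hcm : c ∈ capA w (rad P (g w)) := ⟨hc1, hlt⟩
  have hnb : (𝓝[capA (P z) (rad P z) ∩ capA w (rad P (g w))] c).NeBot := by
    refine cap_nebot hPz hc1 hPz h0 h1 hcr.le (by rw [ang_self hPz]; exact h0) ?_
    filter_upwards [(qc_tendsto hc1).eventually (cap_open_nhds hcm), self_mem_nhdsWithin]
      with t ht1 ht2
    exact ht1 (qc_mem hPz hc1 hPz h0 h1 hcr.le (by rw [ang_self hPz]; exact h0) ht2).1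
  have t1 : Tendsto g' (𝓝[capA (P z) (rad P z) ∩ capA w (rad P (g w))] c) (𝓝 (g' c)) :=
    (hg's.1 c hcm).mono_left (nhdsWithin_mono c inter_subset_right)
  have t2 : Tendsto g' (𝓝[capA (P z) (rad P z) ∩ capA w (rad P (g w))] c) (cocompact ℂ) := by
    refine (ht.mono_left (nhdsWithin_mono c inter_subset_left)).congr' ?_
    filter_upwards [self_mem_nhdsWithin] with p hp
    rw [br_uniq hU hC hR hP hg₀ hg p hp.1, e3 p hp]
  exact nofin t2 t1

theorem stay (hU : S_UNIQ) (hC : S_CONV) (hR : S_RAD) (hT : S_TRI) (hG : S_REG) : S_STAY := by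
  intro P hP z g w c hg hw hs he
  obtain ⟨hc1, hcr, g₀, hg₀, ht⟩ := hs
  obtain ⟨h0, h1, -⟩ := hR P hP z
  obtain ⟨k0, k1, g', hg's, hg'c⟩ := hR P hP (g w)
  obtain ⟨e1, -, e2⟩ := (hT P hP).2.1 z g w hg hw
  have hbr : IsBr P (g w) g' := ⟨hg's, hg'c⟩
  have e3 := e2 g' hbr
  have hPz : ‖P z‖ = 1 := hP.2.1 z
  have hw1 : ‖w‖ = 1 := hw.1
  refine ⟨hc1, by rw [e1, he], g', hbr, ?_⟩
  by_contra hcon
  rw [e1] at hg's hcon
  obtain ⟨ε, hε, -, k, hk, hkg⟩ := hG P hP w c (rad P (g w)) g' hw1 k0 k1 hg's hc1 he.symm hcon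
  have hcm : c ∈ capA c ε := self_mem_cap hc1 hε
  have hmem : ∀ t : ℝ, 0 < t → qc c w t ∈ capA (P z) (rad P z) := fun t ht =>
    qc_mem hPz hc1 hw1 h0 h1 hcr.le hw.2 ht
  have hnb : (𝓝[capA (P z) (rad P z) ∩ (capA w (rad P (g w)) ∩ capA c ε)] c).NeBot := by
    refine cap_nebot hPz hc1 hw1 h0 h1 hcr.le hw.2 ?_
    filter_upwards [(qc_tendsto hc1).eventually (cap_open_nhds hcm), self_mem_nhdsWithin]
      with t ht1 ht2
    exact ⟨qc_mem hw1 hc1 hw1 k0 k1 he.symm.le (by rw [ang_self hw1]; exact k0) ht2,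
      ht1 (hmem t ht2).1⟩
  have t1 : Tendsto k (𝓝[capA (P z) (rad P z) ∩ (capA w (rad P (g w)) ∩ capA c ε)] c)
      (𝓝 (k c)) :=
    (hk.1 c hcm).mono_left (nhdsWithin_mono c (inter_subset_right.trans inter_subset_right))
  have t2 : Tendsto k (𝓝[capA (P z) (rad P z) ∩ (capA w (rad P (g w)) ∩ capA c ε)] c)
      (cocompact ℂ) := by
    refine (ht.mono_left (nhdsWithin_mono c inter_subset_left)).congr' ?_
    filter_upwards [self_mem_nhdsWithin] with p hp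
    rw [br_uniq hU hC hR hP hg₀ hg p hp.1, hkg p hp.2, e3 p ⟨hp.1, hp.2.1⟩]
  exact nofin t2 t1

end Pool.Agent.Q238.DP
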