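import Pool.Agent.Q238.DP.Geo

namespace Pool.Agent.Q238.DP

open Pool.Agent.Q61.DP
open MeasureTheory InnerProductSpace Topology Filter Set Metric InnerProductGeometry

/-- Projection to the plane orthogonal to `c`. -/
noncomputable def pe (c p : E3) : E3 := p - (inner ℝ p c : ℝ) • c

/-- Normalised projection. -/
noncomputable def pf (c p : E3) : E3 := ‖pe c p‖⁻¹ • pe c p

theorem pe_norm {c p : E3} (hc : ‖c‖ = 1) (hp : ‖p‖ = 1) :
    ‖pe c p‖ ^ 2 = 1 - (inner ℝ p c : ℝ) ^ 2 := by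
  have hcc : inner ℝ c c = (1:ℝ) := by rw [real_inner_self_eq_norm_sq, hc]; norm_num
  have hpp : inner ℝ p p = (1:ℝ) := by rw [real_inner_self_eq_norm_sq, hp]; norm_num
  rw [← real_inner_self_eq_norm_sq, pe]
  simp only [inner_sub_left, inner_sub_right, inner_smul_left, inner_smul_right, conj_trivial]
  rw [hcc, hpp, real_inner_comm c p]
  ring

theorem pe_inner {c p : E3} (hc : ‖c‖ = 1) : inner ℝ (pe c p) c = (0:ℝ) := by
  have hcc : inner ℝ c c = (1:ℝ) := by rw [real_inner_self_eq_norm_sq, hc]; norm_num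
  rw [pe]
  simp only [inner_sub_left, inner_smul_left, conj_trivial]
  rw [hcc]
  ring

theorem pe_cont (c : E3) : Continuous (pe c) := by
  unfold pe
  fun_prop

theorem open_key (hT : S_TRI) (hR : S_RAD) (hSt : S_STAR) (hQ : S_Q) (hE : S_EQ) (hMe : S_MER)
    {P : ℂ → E3} (hP : LH P) (hnp : NoPair P) (hnb : NoBig P)
    (c : E3) (z₀ : ℂ) (hs : Sing P z₀ c) : ∀ᶠ z in 𝓝 z₀, Sing P z c ∨ Sing P z (-c) := by
  have hpi := Real.pi_pos
  obtain ⟨h0, h1, -⟩ := hR P hP z₀
  have hc : ‖c‖ = 1 := hs.1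
  have hcc : inner ℝ c c = (1:ℝ) := by rw [real_inner_self_eq_norm_sq, hc]; norm_num
  have hn : ‖P z₀‖ = 1 := hP.2.1 z₀
  have hac : angle c (P z₀) = rad P z₀ := hs.2.1
  obtain ⟨z', g', hr', hs', hg', hm, he, hP'⟩ := hSt P hP hnp z₀ c hs
  have hn' : ‖P z'‖ = 1 := hP.2.1 z'
  have hcn : inner ℝ (P z₀) c = Real.cos (rad P z₀) := by
    rw [real_inner_comm, ← cos_ang hc hn, hac]
  have hsR : 0 < Real.sin (rad P z₀) := Real.sin_pos_of_pos_of_lt_pi h0 (by linarith)
  have hs'' : Sing P z' (-c) := by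
    obtain ⟨c', hc1, hc2⟩ := hQ P hP hnp hnb z' hr'
    rcases hnp z' c c' hs' hc1 with h | h
    · rwa [h] at hc2
    · rwa [h] at hc1
  -- the projection of `P z₀`
  have hpe0 : ‖pe c (P z₀)‖ = Real.sin (rad P z₀) := by
    have := pe_norm hc hn
    rw [hcn] at this
    have h2 := Real.sin_sq_add_cos_sq (rad P z₀)
    have h3 := norm_nonneg (pe c (P z₀))
    nlinarith
  have hpf0 : pf c (P z₀) = P z' := by
    rw [pf, hpe0, hP', mv, hac, pe, hcn, Real.cos_pi_div_two_sub, Real.sin_pi_div_two_sub]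
    have h2 := Real.sin_sq_add_cos_sq (rad P z₀)
    have e1 : (Real.sin (rad P z₀))⁻¹ =
        Real.sin (rad P z₀) + Real.cos (rad P z₀) / Real.sin (rad P z₀) *
          Real.cos (rad P z₀) := by
      field_simp
      linarith
    have e2 : (Real.sin (rad P z₀))⁻¹ • (P z₀ - Real.cos (rad P z₀) • c) =
        (Real.sin (rad P z₀))⁻¹ • P z₀ -
          (Real.cos (rad P z₀) / Real.sin (rad P z₀)) • c := by
      rw [smul_sub, smul_smul, inv_mul_eq_div]
    rw [e2, e1]
    module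
  have hpfc : ContinuousAt (pf c) (P z₀) := by
    have k1 : ContinuousAt (fun p => ‖pe c p‖⁻¹) (P z₀) :=
      ((pe_cont c).norm.continuousAt).inv₀ (by rw [hpe0]; exact hsR.ne')
    exact k1.smul (pe_cont c).continuousAt
  have hangc : ∀ᶠ p in 𝓝 (P z₀), angle (pf c p) (P z') < Real.pi / 4 := by
    have hne : P z' ≠ 0 := by
      intro h
      rw [h, norm_zero] at hn'
      exact zero_ne_one hn'
    have h3 : ContinuousAt (fun y : E3 × E3 => angle y.1 y.2) (P z', P z') :=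
      continuousAt_angle hne hne
    have h4 : Tendsto (fun p => (pf c p, P z')) (𝓝 (P z₀)) (𝓝 (P z', P z')) := by
      refine Tendsto.prodMk_nhds ?_ tendsto_const_nhds
      have := hpfc.tendsto
      rwa [hpf0] at this
    have h5 := h3.tendsto.comp h4
    have h6 : angle (P z') (P z') < Real.pi / 4 := by rw [ang_self hn']; linarith
    exact h5.eventually_lt_const h6
  have hpos : ∀ᶠ p in 𝓝 (P z₀), 0 < ‖pe c p‖ :=
    ((pe_cont c).norm.continuousAt).eventually_const_lt (by show 0 < ‖pe c (P z₀)‖; rw [hpe0]; exact hsR)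
  have hPc : Tendsto P (𝓝 z₀) (𝓝 (P z₀)) := hP.1.continuousAt
  have hA : ∀ᶠ z in 𝓝 z₀, P z ∈ capA (P z') (Real.pi / 2) ∧ g' (P z) = z := by
    have hsec : Sec P g' (capA (P z') (Real.pi / 2)) := by rw [← hr']; exact hg'.1
    refine (hT P hP).2.2 z₀ g' _ hsec ⟨Real.pi / 2 - angle (P z₀) (P z'), ?_, ?_⟩ he
    · have := hm.2
      linarith
    · rintro p ⟨hp1, hp2⟩
      refine ⟨hp1, ?_⟩
      have := angle_le_angle_add_angle p (P z₀) (P z')
      linarith
  filter_upwards [hA, hPc.eventually hangc, hPc.eventually hpos] with z hz1 hz2 hz3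
  obtain ⟨hz1, hz4⟩ := hz1
  have hp : ‖P z‖ = 1 := hP.2.1 z
  set p := P z with hpdef
  set w := pf c p with hw
  set x : ℝ := inner ℝ p c with hx
  have hw1 : ‖w‖ = 1 := by rw [hw, pf, norm_smul, norm_inv, norm_norm, inv_mul_cancel₀ hz3.ne']
  have hwc : inner ℝ w c = (0:ℝ) := by
    rw [hw, pf, inner_smul_left, pe_inner hc, mul_zero]
  have hnn := pe_norm hc hp
  rw [← hx] at hnn
  have hdec : ‖pe c p‖ • w + x • c = p := by
    rw [hw, pf, smul_smul, mul_inv_cancel₀ hz3.ne', one_smul, pe]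
    exact sub_add_cancel _ _
  obtain ⟨q1, q2, q3⟩ := hE P hP hnp z' g' w c hg' hr' hs' hs'' hw1 hz2 hwc
  have hwA : w ∈ capA (P z') (rad P z') := ⟨hw1, by rw [hr']; linarith⟩
  obtain ⟨t1, -, t3⟩ := (hT P hP).2.1 z' g' w hg' hwA
  obtain ⟨-, -, gw, hgw1, hgw2⟩ := hR P hP (g' w)
  have hagree : gw p = g' p := by
    refine t3 gw ⟨hgw1, hgw2⟩ p ⟨by rw [hr']; exact hz1, ?_⟩
    rw [q1, mem_cap hw1 (by linarith) (by linarith), Real.cos_pi_div_two]
    refine ⟨hp, ?_⟩
    have hww : inner ℝ w w = (1:ℝ) := by rw [real_inner_self_eq_norm_sq, hw1]; norm_num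
    rw [← hdec]
    simp only [inner_add_left, inner_smul_left, conj_trivial]
    rw [hww, real_inner_comm w c, hwc]
    linarith
  have hx2 : x ^ 2 < 1 := by nlinarith
  have hx1 : -1 < x := by nlinarith
  have hx1' : x < 1 := by nlinarith
  have hnx : ‖pe c p‖ = Real.sqrt (1 - x ^ 2) := by
    rw [← hnn, Real.sqrt_sq (norm_nonneg _)]
  rcases le_or_gt 0 x with hx0 | hx0
  · left
    have := hMe P hP (g' w) gw c (Real.arcsin x) ⟨hgw1, hgw2⟩ q1 q2 (Real.arcsin_nonneg.2 hx0)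
      (by rw [Real.arcsin_lt_pi_div_two]; exact hx1')
    rw [t1, Real.cos_arcsin, Real.sin_arcsin hx1.le hx1'.le, ← hnx, hdec, hagree, hz4] at this
    exact this
  · right
    have := hMe P hP (g' w) gw (-c) (Real.arcsin (-x)) ⟨hgw1, hgw2⟩ q1 q3
      (Real.arcsin_nonneg.2 (by linarith))
      (by rw [Real.arcsin_lt_pi_div_two]; linarith)
    rw [t1, Real.cos_arcsin, Real.sin_arcsin (by linarith) (by linarith), neg_sq, ← hnx, neg_smul_neg,
      hdec, hagree, hz4] at this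
    exact this

theorem opn (hT : S_TRI) (hR : S_RAD) (hSt : S_STAR) (hQ : S_Q) (hE : S_EQ) (hMe : S_MER) :
    S_OPEN := by
  intro P hP hnp hnb c
  rw [isOpen_iff_mem_nhds]
  intro z₀ hz₀
  rcases hz₀ with h | h
  · exact open_key hT hR hSt hQ hE hMe hP hnp hnb c z₀ h
  · have := open_key hT hR hSt hQ hE hMe hP hnp hnb (-c) z₀ h
    rw [neg_neg] at this
    filter_upwards [this] with z hz
    exact hz.symm

end Pool.Agent.Q238.DP
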