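import Pool.Agent.Q238.DP.Geo

namespace Pool.Agent.Q238.DP

open Pool.Agent.Q61.DP
open MeasureTheory InnerProductSpace Topology Filter Set Metric InnerProductGeometry

theorem t1 (hN : S_NE) (hQ : S_Q) (hCl : S_CLOSED) (hO : S_OPEN) (hR : S_RAD) : S_T1 := by
  intro P hP hnp hnb
  have hex : ∀ z, ∃ c, Sing P z c := by
    intro z
    obtain ⟨h0, h1, -⟩ := hR P hP z
    rcases lt_or_eq_of_le h1 with h | h
    · exact hN P hP z h
    · obtain ⟨c, hc, -⟩ := hQ P hP hnp hnb z h
      exact ⟨c, hc⟩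
  obtain ⟨c, hc⟩ := hex 0
  refine ⟨c, hc.1, ?_⟩
  have hclo : IsClosed {z | Sing P z c ∨ Sing P z (-c)} := by
    have key : ∀ d : E3, IsClosed {z | Sing P z d} := by
      intro d
      rw [← isSeqClosed_iff_isClosed]
      intro zs z₀ hz hl
      exact hCl P hP zs (fun _ => d) z₀ d hl tendsto_const_nhds hz
    exact (key c).union (key (-c))
  have hun := IsClopen.eq_univ ⟨hclo, hO P hP hnp hnb c⟩ ⟨0, Or.inl hc⟩
  intro z
  have : z ∈ {z | Sing P z c ∨ Sing P z (-c)} := by rw [hun]; exact mem_univ z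
  exact this

end Pool.Agent.Q238.DP
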