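import Pool.Agent.Q238.DP.Glue
import Pool.Agent.Q208.DP.D1a
import Pool.Agent.Q208.DP.D1b
import Pool.Agent.Q208.DP.D1c
import Pool.Agent.Q208.DP.D2
import Pool.Agent.Q208.DP.FRAME
import Pool.Agent.Q208.DP.SIG
import Pool.Agent.Q208.DP.TH
import Pool.Agent.Q208.DP.Conv
import Pool.Agent.Q238.DP.D3
import Pool.Agent.Q238.DP.D5
import Pool.Agent.Q238.DP.Final
import Pool.Agent.Q238.DP.Mer
import Pool.Agent.Q238.DP.Notin
import Pool.Agent.Q238.DP.Dl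
import Pool.Agent.Q238.DP.Eq
import Pool.Agent.Q238.DP.Open
import Pool.Agent.Q238.DP.T1
import Pool.Agent.Q199.DP.D4
import Pool.Agent.Q129.DP.LHP
import Pool.Agent.Q129.DP.Star
import Pool.Agent.Q129.DP.P5
import Pool.Agent.Q285.DP.Len
import Pool.Agent.Q259.DP.Hol
import Pool.Agent.Q259.DP.C3
import Pool.Agent.Q96.DP.Low
import Pool.Agent.Q277.DP.Urt
import Pool.Agent.Q277.DP.Q
import Pool.Agent.Q277.DP.K1
import Pool.Agent.Q277.DP.C2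
import Pool.Agent.Q176.DP.Closed
import Pool.Agent.Q176.DP.NE
import Pool.Agent.Q176.DP.KS
import Pool.Agent.Q211.DP.MV
import Pool.Agent.Q211.DP.P1
import Pool.Agent.Q153.DP.B1
import Pool.Agent.Q153.DP.B2
import Pool.Agent.Q153.DP.P3
import Pool.Agent.Q153.DP.P4
import Pool.Agent.Q279.DP.B3
import Pool.Agent.Q279.DP.Lift
import Pool.Agent.Q279.DP.Sep
import Pool.Agent.Q123.DP.E1
import Pool.Agent.Q123.DP.E2
import Pool.Agent.Q123.DP.E3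
import Pool.Agent.Q123.DP.E5
import Pool.Agent.Q79.DP.E4
import Pool.Agent.Q198.DP.C1
import Pool.Agent.Q265.DP.C4

namespace Pool.Agent.Q238.DP

open Pool.Agent.Q61.DP

theorem all_of_glue (hG : S_GLUE) : S_D5 ∧ S_LOW ∧ S_FINAL := by
  have hD1a : S_D1a := Pool.Agent.Q208.DP.d1a
  have hD1b : S_D1b := Pool.Agent.Q208.DP.d1b
  have hD1c : S_D1c := Pool.Agent.Q208.DP.d1c
  have hD2 : S_D2 := Pool.Agent.Q208.DP.d2
  have hD3 : S_D3 := d3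
  have hD4 : S_D4 := Pool.Agent.Q199.DP.D4.s_D4
  have hD5 : S_D5 := d5 hD1a hD1b hD1c hD2 hD3 hD4
  have hFRAME : S_FRAME := Pool.Agent.Q208.DP.sframe
  have hSIG : S_SIG := Pool.Agent.Q208.DP.ssig
  have hTH : S_TH := Pool.Agent.Q208.DP.sth
  have hLHP : S_LHP := Pool.Agent.Q129.DP.lhp hSIG hFRAME
  have hLEN : S_LEN := Pool.Agent.Q285.DPLen.len
  have hHOL : S_HOL := Pool.Agent.Q259.DP.t_HOL
  have hLOW : S_LOW := Pool.Agent.Q96.DP.low hTH hLEN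
  have hCONV : S_CONV := Pool.Agent.Q208.DP.sconv
  have hUNIQ : S_UNIQ := Pool.Agent.Q277.DP.t_UNIQ
  have hREG : S_REG := Pool.Agent.Q277.DP.t_REG hUNIQ hCONV
  have hRAD : S_RAD := Pool.Agent.Q277.DP.t_RAD hUNIQ hCONV
  have hTRI : S_TRI := Pool.Agent.Q277.DP.t_TRI hUNIQ hCONV hRAD
  have hNOTIN : S_NOTIN := notin hUNIQ hCONV hRAD hTRI
  have hSTAY : S_STAY := stay hUNIQ hCONV hRAD hTRI hREG
  have hCLOSED : S_CLOSED := Pool.Agent.Q176.DP.closed hUNIQ hCONV hRAD hTRI hREG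
  have hNE : S_NE := Pool.Agent.Q176.DP.ne hUNIQ hCONV hRAD hG
  have hQ : S_Q := Pool.Agent.Q277.DP.t_Q hRAD hG
  have hMV : S_MV := Pool.Agent.Q211.DP.mv_all
  have hDL : S_DL := dl hTRI hRAD hNE hCLOSED hNOTIN hMV
  have hK1 : S_K1 := Pool.Agent.Q277.DP.t_K1 hTRI hRAD hNE hDL hMV
  have hKS : S_KS := Pool.Agent.Q176.DP.ks hK1 hNOTIN hSTAY hMV
  have hSTAR : S_STAR := Pool.Agent.Q129.DP.star hKS hTRI hRAD hMV
  have hHH : S_HH := hh hNOTIN hSTAY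
  have hEQ : S_EQ := eqn hTRI hRAD hNE hSTAR hHH hUNIQ hCONV hMV
  have hMER : S_MER := mer hTRI hNOTIN hSTAY
  have hOPEN : S_OPEN := opn hTRI hRAD hSTAR hQ hEQ hMER
  have hT1 : S_T1 := t1 hNE hQ hCLOSED hOPEN hRAD
  have hB1 : S_B1 := Pool.Agent.Q153.DP.s_B1 hHOL
  have hB2 : S_B2 := Pool.Agent.Q153.DP.s_B2 hHOL hTH hLEN
  have hB3 : S_B3 := Pool.Agent.Q279.DP.b3 hFRAME hSIG hB1 hB2
  have hP1 : S_P1 := Pool.Agent.Q211.DP.p1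
  have hLIFT : S_LIFT := Pool.Agent.Q279.DP.lift
  have hSEP : S_SEP := Pool.Agent.Q279.DP.sep hLIFT
  have hP3 : S_P3 := Pool.Agent.Q153.DP.s_P3 hP1
  have hP4 : S_P4 := Pool.Agent.Q153.DP.s_P4 hHOL hTH hLEN hSEP hP3
  have hP5 : S_P5 := Pool.Agent.Q129.DP.p5 hFRAME hSIG hLHP hRAD hUNIQ hCONV hP4
  have hE1 : S_E1 := Pool.Agent.Q123.DP.E1.s_E1 hSIG hRAD
  have hE2 : S_E2 := Pool.Agent.Q123.DP.E2.s_E2
  have hE3 : S_E3 := Pool.Agent.Q123.DP.E3.s_E3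
  have hE4 : S_E4 := Pool.Agent.Q79.DP.e4
  have hE5 : S_E5 := Pool.Agent.Q123.DP.E5.s_E5 hFRAME hLHP hE1 hE2 hE3 hE4
  have hC1 : S_C1 := Pool.Agent.Q198.DP.t_C1 hD1a hD1b hD1c
  have hC2 : S_C2 := Pool.Agent.Q277.DP.t_C2
  have hC3 : S_C3 := Pool.Agent.Q259.DP.t_C3
  have hC4 : S_C4 := Pool.Agent.Q265.DP.c4
  exact ⟨hD5, hLOW, final hD5 hLOW hP5 hB3 hLHP hT1 hE5 hC1 hC2 hC3 hC4⟩

theorem main (u : ℂ → ℝ) (hu : IsSol u) : ENNReal.ofReal Real.pi ≤ gdiam u ∧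
    (gdiam u = ENNReal.ofReal Real.pi ↔ Radial u ∨ OneDim u) := by
  have hG : S_GLUE := glue Pool.Agent.Q277.DP.t_UNIQ Pool.Agent.Q208.DP.sconv
    (Pool.Agent.Q277.DP.t_REG Pool.Agent.Q277.DP.t_UNIQ Pool.Agent.Q208.DP.sconv)
  obtain ⟨h5, hL, hF⟩ := all_of_glue hG
  obtain ⟨a, b, hd⟩ := h5 u hu
  exact ⟨hL u a b hd, hF u hu⟩

end Pool.Agent.Q238.DP
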